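import Pool.Agent.Lib.MP_aa62e0_lcS.Main

/-!
MP_aa62e0_lc (sample compression).  Sample compression for sparse families of samples.
-/

set_option autoImplicit false

open Finset

namespace Pool.Agent.Lib.MP_aa62e0_lcS

variable {X : Type} [DecidableEq X]

/-- The concept `c` is consistent with the labelled sample `T`. -/
def Fits (c : Finset X) (T : Finset (X × Bool)) : Prop := ∀ p ∈ T, decide (p.1 ∈ c) = p.2

instance (c : Finset X) (T : Finset (X × Bool)) : Decidable (Fits c T) :=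
  inferInstanceAs (Decidable (∀ p ∈ T, decide (p.1 ∈ c) = p.2))

/-- Passing to the samples which contain a member of `F` and are consistent with its concept. -/
theorem scheme_up (F : Finset (Finset (X × Bool))) (c : Finset (X × Bool) → Finset X)
    (hc : ∀ S ∈ F, Fits (c S) S)
    (Z : {S // S ∈ F} → Finset X) (hZ : Function.Injective Z) (hZs : ∀ S, Z S ⊆ dom S.1) :
    ∃ κ : Finset (X × Bool) → Finset (X × Bool), ∃ ρ : Finset X → Finset X,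
      ∀ T, (∃ S ∈ F, S ⊆ T ∧ Fits (c S) T) → κ T ⊆ T ∧
        (∃ S, dom (κ T) = Z S ∧ (κ T).card = (Z S).card) ∧ Fits (ρ (dom (κ T))) T := by
  classical
  obtain ⟨κ, ρ, h⟩ := scheme_of_inj F c hc Z hZ hZs
  let κ' : Finset (X × Bool) → Finset (X × Bool) := fun T =>
    if hT : ∃ S ∈ F, S ⊆ T ∧ Fits (c S) T then κ hT.choose else ∅
  refine ⟨κ', ρ, fun T hT => ?_⟩
  obtain ⟨h1, h2, h3⟩ := hT.choose_spec
  obtain ⟨h4, h5, h6, h7⟩ := h _ h1
  have e : κ' T = κ hT.choose := dif_pos hT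
  rw [e]
  refine ⟨h4.trans h2, ⟨_, h5, h6⟩, ?_⟩
  rw [h7]
  exact h3

theorem sparse_zero (C : Finset (Finset X)) (F : Finset (Finset (X × Bool)))
    (c : Finset (X × Bool) → Finset X) (hC : ∀ S ∈ F, c S ∈ C) (hc : ∀ S ∈ F, Fits (c S) S)
    (rk : Finset (X × Bool) → ℕ) (hrk : Set.InjOn rk F)
    (hF : ∀ S ∈ F, ∀ S' ∈ F, rk S' < rk S → ¬ Fits (c S') S) :
    ∃ κ : Finset (X × Bool) → Finset (X × Bool), ∃ ρ : Finset X → Finset X,
      ∀ T, (∃ S ∈ F, S ⊆ T ∧ Fits (c S) T) →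
        κ T ⊆ T ∧ (κ T).card ≤ C.vcDim ∧ C.Shatters (dom (κ T)) ∧
          Fits (ρ (dom (κ T))) T := by
  obtain ⟨Z, hZ, hZm⟩ := hall_sh (ι := {S // S ∈ F}) C (fun S => rk S.1)
    (fun S S' h => Subtype.ext (hrk S.2 S'.2 h)) (fun S => dom S.1) (fun S => c S.1)
    (fun S => hC S.1 S.2) (fun S S' h h1 => hF S.1 S.2 S'.1 S'.2 h
      ((inter_eq_iff (hc S.1 S.2)).1 h1))
  obtain ⟨κ, ρ, h⟩ := scheme_up F c hc Z hZ fun S => (hZm S).1
  refine ⟨κ, ρ, fun T hT => ?_⟩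
  obtain ⟨h1, ⟨S, h2, h3⟩, h4⟩ := h T hT
  refine ⟨h1, ?_, ?_, h4⟩
  · rw [h3]
    exact (hZm S).2.card_le_vcDim
  · rw [h2]
    exact (hZm S).2

theorem sparse_gen (C : Finset (Finset X)) (F : Finset (Finset (X × Bool)))
    (c : Finset (X × Bool) → Finset X) (hC : ∀ S ∈ F, c S ∈ C) (hc : ∀ S ∈ F, Fits (c S) S)
    (rk : Finset (X × Bool) → ℕ) (hrk : Set.InjOn rk F) (a r t : ℕ) (ha : 3 * C.vcDim ≤ a)
    (hA : ∀ S ∈ F, a ≤ S.card)
    (hF : ∀ S ∈ F, (F.filter fun S' => rk S' < rk S ∧ Fits (c S') S).card ≤ t)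
    (hnum : 2 * (t + 1) * (C.vcDim + r).choose r ≤ (a - C.vcDim).choose r) :
    ∃ κ : Finset (X × Bool) → Finset (X × Bool), ∃ ρ : Finset X → Finset X,
      ∀ T, (∃ S ∈ F, S ⊆ T ∧ Fits (c S) T) →
        κ T ⊆ T ∧ (κ T).card = C.vcDim + r ∧ Fits (ρ (dom (κ T))) T := by
  obtain ⟨Z, hZ, hZm⟩ := hall_sub (ι := {S // S ∈ F}) C (fun S => rk S.1)
    (fun S S' h => Subtype.ext (hrk S.2 S'.2 h)) (fun S => dom S.1) (fun S => c S.1)
    (fun S => hC S.1 S.2) a r t ha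
    (fun S => by rw [card_dom (hc S.1 S.2)]; exact hA S.1 S.2) (fun S s => by
      refine le_trans ?_ (hF S.1 S.2)
      refine card_le_card_of_injOn Subtype.val (fun S' hS' => ?_) Subtype.val_injective.injOn
      rw [mem_coe, mem_filter] at hS'
      rw [mem_coe, mem_filter]
      exact ⟨S'.2, hS'.2.1, (inter_eq_iff (hc S.1 S.2)).1 hS'.2.2⟩) hnum
  obtain ⟨κ, ρ, h⟩ := scheme_up F c hc Z hZ fun S => (hZm S).1
  refine ⟨κ, ρ, fun T hT => ?_⟩
  obtain ⟨h1, ⟨S, h2, h3⟩, h4⟩ := h T hT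
  exact ⟨h1, by rw [h3, (hZm S).2], h4⟩

end Pool.Agent.Lib.MP_aa62e0_lcS
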