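import Pool.Agent.Lib.MP_aa62e0_lcS.Poly

/-!
MP_aa62e0_lc (sample compression).  Growth of the shadows: many small subsets of large sets give many
subsets of size `d + r`.
-/

set_option autoImplicit false

open Finset

namespace Pool.Agent.Lib.MP_aa62e0_lcS

variable {X : Type} [DecidableEq X]

/-- The ratio `C(k, j) / C(a - j, k - j)`. -/
def rat (a k j : ℕ) : ℚ := (k.choose j : ℚ) / ((a - j).choose (k - j) : ℚ)

theorem rat_pos {a k j : ℕ} (hj : j ≤ k) (hk : k ≤ a) : 0 < rat a k j := by
  unfold rat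
  have h1 : 0 < k.choose j := Nat.choose_pos hj
  have h2 : 0 < (a - j).choose (k - j) := Nat.choose_pos (by omega)
  positivity

/-- The ratios at least double. -/
theorem rat_succ {a k j : ℕ} (hj : j < k) (hk : k ≤ a) (ha : 3 * j + 2 ≤ a) :
    rat a k j ≤ rat a k (j + 1) / 2 := by
  unfold rat
  obtain ⟨m, rfl⟩ : ∃ m, a = m + 1 + j := ⟨a - j - 1, by omega⟩
  obtain ⟨l, rfl⟩ : ∃ l, k = l + 1 + j := ⟨k - j - 1, by omega⟩
  have e1 : m + 1 + j - j = m + 1 := by omega
  have e2 : l + 1 + j - j = l + 1 := by omega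
  have e3 : m + 1 + j - (j + 1) = m := by omega
  have e4 : l + 1 + j - (j + 1) = l := by omega
  rw [e1, e2, e3, e4]
  have h1 : (l + 1 + j).choose (j + 1) * (j + 1) = (l + 1 + j).choose j * (l + 1) := by
    have h := Nat.choose_succ_right_eq (l + 1 + j) j
    rwa [e2] at h
  have h2 : (m + 1) * m.choose l = (m + 1).choose (l + 1) * (l + 1) :=
    Nat.add_one_mul_choose_eq m l
  have h3 : 0 < m.choose l := Nat.choose_pos (by omega)
  have h4 : 0 < (m + 1).choose (l + 1) := Nat.choose_pos (by omega)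
  have h1' : ((l + 1 + j).choose (j + 1) : ℚ) * (j + 1) = (l + 1 + j).choose j * (l + 1) := by
    exact_mod_cast h1
  have h2' : ((m : ℚ) + 1) * m.choose l = (m + 1).choose (l + 1) * (l + 1) := by
    exact_mod_cast h2
  have h3' : (0 : ℚ) < m.choose l := by exact_mod_cast h3
  have h4' : (0 : ℚ) < (m + 1).choose (l + 1) := by exact_mod_cast h4
  have h5 : (2 : ℚ) * (j + 1) ≤ m + 1 := by
    have : 2 * (j + 1) ≤ m + 1 := by omega
    exact_mod_cast this
  have h6 : (0 : ℚ) < (l : ℚ) + 1 := by positivity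
  rw [div_div, div_le_div_iff₀ h4' (by positivity)]
  have h7 : (0 : ℚ) ≤ (l + 1 + j).choose (j + 1) := by positivity
  -- multiply by `l + 1`
  refine le_of_mul_le_mul_right ?_ h6
  calc ((l + 1 + j).choose j : ℚ) * (m.choose l * 2) * (l + 1)
      = ((l + 1 + j).choose (j + 1) : ℚ) * (2 * (j + 1)) * m.choose l := by
        linear_combination (-(2 : ℚ) * m.choose l) * h1'
    _ ≤ ((l + 1 + j).choose (j + 1) : ℚ) * (m + 1) * m.choose l := by gcongr
    _ = ((l + 1 + j).choose (j + 1) : ℚ) * (m + 1).choose (l + 1) * (l + 1) := by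
        linear_combination ((l + 1 + j).choose (j + 1) : ℚ) * h2'

theorem sum_rat_le {a k : ℕ} (hk : k ≤ a) (d : ℕ) (hd : d ≤ k) (ha : 3 * d ≤ a) :
    ∑ j ∈ range (d + 1), rat a k j ≤ 2 * rat a k d := by
  induction d with
  | zero =>
    have h1 := rat_pos (Nat.zero_le k) hk
    simp only [zero_add, sum_range_one]
    linarith
  | succ d ih =>
    rw [sum_range_succ]
    have h1 := ih (by omega) (by omega)
    have h2 := rat_succ (a := a) (k := k) (j := d) (by omega) hk (by omega)
    linarith

/-- The subsets of size `k` of the sets `A i`. -/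
def sub {ι : Type} [DecidableEq ι] (s : Finset ι) (A : ι → Finset X) (k : ℕ) :
    Finset (Finset X) :=
  s.biUnion fun i => (A i).powersetCard k

/-- Double counting for the sets with `j` elements. -/
theorem card_mul_le {ι : Type} [DecidableEq ι] (s : Finset ι) (A : ι → Finset X)
    {a k j : ℕ} (hj : j ≤ k) (hA : ∀ i ∈ s, a ≤ (A i).card) (G : Finset (Finset X))
    (hG : ∀ Z ∈ G, Z.card = j ∧ ∃ i ∈ s, Z ⊆ A i) :
    G.card * (a - j).choose (k - j) ≤ (sub s A k).card * k.choose j := by
  refine card_mul_le_card_mul (fun Z K => Z ⊆ K) (fun Z hZ => ?_) (fun K hK => ?_)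
  · obtain ⟨hZc, i, hi, hZi⟩ := hG Z hZ
    have h1 : (((A i) \ Z).powersetCard (k - j)).card ≤
        (bipartiteAbove (fun Z K => Z ⊆ K) (sub s A k) Z).card := by
      refine card_le_card_of_injOn (fun W => Z ∪ W) (fun W hW => ?_) ?_
      · rw [mem_coe, mem_powersetCard] at hW
        rw [mem_coe, bipartiteAbove, mem_filter]
        refine ⟨?_, subset_union_left⟩
        rw [sub, mem_biUnion]
        refine ⟨i, hi, mem_powersetCard.2 ⟨union_subset hZi (hW.1.trans sdiff_subset), ?_⟩⟩
        rw [card_union_of_disjoint (disjoint_of_subset_right hW.1 disjoint_sdiff), hZc, hW.2]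
        omega
      · intro W hW W' hW' h
        rw [mem_coe, mem_powersetCard] at hW hW'
        have h2 : ∀ V : Finset X, V ⊆ A i \ Z → (Z ∪ V) \ Z = V := fun V hV => by
          rw [union_sdiff_left]
          exact sdiff_eq_self_of_disjoint (disjoint_of_subset_left hV sdiff_disjoint)
        have h3 : Z ∪ W = Z ∪ W' := h
        rw [← h2 W hW.1, h3, h2 W' hW'.1]
    refine le_trans ?_ h1
    rw [card_powersetCard, card_sdiff_of_subset hZi, hZc]
    exact Nat.choose_le_choose _ (Nat.sub_le_sub_right (hA i hi) _)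
  · rw [sub, mem_biUnion] at hK
    obtain ⟨i, hi, hKi⟩ := hK
    rw [mem_powersetCard] at hKi
    calc (bipartiteBelow (fun Z K => Z ⊆ K) G K).card ≤ (K.powersetCard j).card := by
          refine card_le_card fun Z hZ => ?_
          rw [bipartiteBelow, mem_filter] at hZ
          exact mem_powersetCard.2 ⟨hZ.2, (hG Z hZ.1).1⟩
      _ = k.choose j := by rw [card_powersetCard, hKi.2]

/-- The number of subsets of size `k` is large. -/
theorem card_le_sub {ι : Type} [DecidableEq ι] (s : Finset ι) (A : ι → Finset X)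
    {a k d : ℕ} (hd : d ≤ k) (hk : k ≤ a) (ha : 3 * d ≤ a) (hA : ∀ i ∈ s, a ≤ (A i).card)
    (G : Finset (Finset X)) (hG : ∀ Z ∈ G, Z.card ≤ d ∧ ∃ i ∈ s, Z ⊆ A i) :
    (G.card : ℚ) ≤ 2 * rat a k d * (sub s A k).card := by
  have h1 : ∀ j ∈ range (d + 1), ((G.filter fun Z => Z.card = j).card : ℚ) ≤
      rat a k j * (sub s A k).card := by
    intro j hj
    rw [mem_range] at hj
    have h2 := card_mul_le s A (a := a) (k := k) (j := j) (by omega) hA
      (G.filter fun Z => Z.card = j) (fun Z hZ => by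
        rw [mem_filter] at hZ
        exact ⟨hZ.2, (hG Z hZ.1).2⟩)
    have h3 : 0 < (a - j).choose (k - j) := Nat.choose_pos (by omega)
    have h3' : (0 : ℚ) < (a - j).choose (k - j) := by exact_mod_cast h3
    have h2' : ((G.filter fun Z => Z.card = j).card : ℚ) * (a - j).choose (k - j) ≤
        (sub s A k).card * k.choose j := by exact_mod_cast h2
    unfold rat
    rw [div_mul_eq_mul_div, le_div_iff₀ h3', mul_comm (k.choose j : ℚ)]
    exact h2'
  have h2 : (G.card : ℚ) = ∑ j ∈ range (d + 1), ((G.filter fun Z => Z.card = j).card : ℚ) := by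
    have h3 : G.card = ∑ j ∈ range (d + 1), (G.filter fun Z => Z.card = j).card :=
      card_eq_sum_card_fiberwise fun Z hZ => by
        rw [mem_coe, mem_range]
        have := (hG Z hZ).1
        omega
    exact_mod_cast h3
  calc (G.card : ℚ) = ∑ j ∈ range (d + 1), ((G.filter fun Z => Z.card = j).card : ℚ) := h2
    _ ≤ ∑ j ∈ range (d + 1), rat a k j * (sub s A k).card := sum_le_sum h1
    _ = (∑ j ∈ range (d + 1), rat a k j) * (sub s A k).card := by rw [sum_mul]
    _ ≤ 2 * rat a k d * (sub s A k).card := by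
      have h4 := sum_rat_le hk d hd ha
      gcongr

end Pool.Agent.Lib.MP_aa62e0_lcS
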