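import Pool.Agent.Lib.MP_aa62e0_lcS.Grow

/-!
MP_aa62e0_lc (sample compression).  Hall's theorem, and the translation to labelled samples.
-/

set_option autoImplicit false

open Finset

namespace Pool.Agent.Lib.MP_aa62e0_lcS

variable {X : Type} [DecidableEq X]

theorem hall_sh {ι : Type} [DecidableEq ι] (C : Finset (Finset X)) (rk : ι → ℕ)
    (hrk : Function.Injective rk) (A c : ι → Finset X) (hc : ∀ i, c i ∈ C)
    (hind : ∀ i j, rk j < rk i → A i ∩ c j ≠ A i ∩ c i) :
    ∃ Z : ι → Finset X, Function.Injective Z ∧ ∀ i, Z i ⊆ A i ∧ C.Shatters (Z i) := by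
  have h1 : ∀ s : Finset ι, s.card ≤ (s.biUnion fun i => sh C (A i)).card := fun s =>
    card_le_sh C s rk hrk.injOn A c (fun i _ => hc i) (fun i _ j _ => hind i j)
  obtain ⟨Z, hZ, hZm⟩ := (Finset.all_card_le_biUnion_card_iff_exists_injective _).1 h1
  exact ⟨Z, hZ, fun i => mem_sh.1 (hZm i)⟩

theorem hall_sub {ι : Type} [DecidableEq ι] (C : Finset (Finset X)) (rk : ι → ℕ)
    (hrk : Function.Injective rk) (A c : ι → Finset X) (hc : ∀ i, c i ∈ C) (a r t : ℕ)
    (ha : 3 * C.vcDim ≤ a) (hA : ∀ i, a ≤ (A i).card)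
    (hs : ∀ (i : ι) (s : Finset ι),
      (s.filter fun j => rk j < rk i ∧ A i ∩ c j = A i ∩ c i).card ≤ t)
    (hnum : 2 * (t + 1) * (C.vcDim + r).choose r ≤ (a - C.vcDim).choose r) :
    ∃ Z : ι → Finset X, Function.Injective Z ∧ ∀ i, Z i ⊆ A i ∧ (Z i).card = C.vcDim + r := by
  set d := C.vcDim with hd
  have hpos : 0 < (a - d).choose r := by
    refine lt_of_lt_of_le ?_ hnum
    have : 0 < (d + r).choose r := Nat.choose_pos (by omega)
    positivity
  have hk : d + r ≤ a := by
    have h1 : r ≤ a - d := by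
      by_contra h
      rw [Nat.choose_eq_zero_of_lt (by omega)] at hpos
      exact absurd hpos (lt_irrefl _)
    omega
  have h1 : ∀ s : Finset ι, s.card ≤ (s.biUnion fun i => (A i).powersetCard (d + r)).card := by
    intro s
    obtain ⟨s', hs', hcard, hind⟩ := exists_indep rk (fun i j => A i ∩ c j = A i ∩ c i) t s
      (fun i _ => hs i s)
    have h2 := card_le_sh C s' rk hrk.injOn A c (fun i _ => hc i) hind
    set G := s'.biUnion fun i => sh C (A i) with hG
    have h3 := card_le_sub s A (a := a) (k := d + r) (d := d) (by omega) hk ha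
      (fun i _ => hA i) G (fun Z hZ => by
        rw [hG, mem_biUnion] at hZ
        obtain ⟨i, hi, hZi⟩ := hZ
        rw [mem_sh] at hZi
        exact ⟨hZi.2.card_le_vcDim, i, hs' hi, hZi.1⟩)
    have h4 : rat a (d + r) d * (2 * (t + 1)) ≤ 1 := by
      unfold rat
      have e1 : d + r - d = r := by omega
      have e2 : (d + r).choose d = (d + r).choose r := by
        have h := Nat.choose_symm (n := d + r) (k := r) (by omega)
        rw [← h]
        congr 1
        omega
      rw [e1, e2]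
      have hpos' : (0 : ℚ) < (a - d).choose r := by exact_mod_cast hpos
      rw [div_mul_eq_mul_div, div_le_one hpos']
      have h5 : ((2 * (t + 1) * (d + r).choose r : ℕ) : ℚ) ≤ ((a - d).choose r : ℕ) := by
        exact_mod_cast hnum
      push_cast at h5
      linarith
    have h5 : (s.card : ℚ) ≤ ((sub s A (d + r)).card : ℚ) := by
      have h6 : (s.card : ℚ) ≤ (t + 1) * s'.card := by exact_mod_cast hcard
      have h7 : (s'.card : ℚ) ≤ G.card := by exact_mod_cast h2
      have h8 : (0 : ℚ) ≤ (sub s A (d + r)).card := by positivity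
      calc (s.card : ℚ) ≤ (t + 1) * s'.card := h6
        _ ≤ (t + 1) * (2 * rat a (d + r) d * (sub s A (d + r)).card) := by
          gcongr
          exact h7.trans h3
        _ = (rat a (d + r) d * (2 * (t + 1))) * (sub s A (d + r)).card := by ring
        _ ≤ 1 * (sub s A (d + r)).card := by gcongr
        _ = (sub s A (d + r)).card := one_mul _
    exact_mod_cast h5
  obtain ⟨Z, hZ, hZm⟩ := (Finset.all_card_le_biUnion_card_iff_exists_injective _).1 h1
  exact ⟨Z, hZ, fun i => mem_powersetCard.1 (hZm i)⟩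

/-- The places of a labelled sample. -/
def dom (S : Finset (X × Bool)) : Finset X := S.image Prod.fst

theorem inter_eq_iff {S : Finset (X × Bool)} {c c' : Finset X}
    (hc : ∀ p ∈ S, decide (p.1 ∈ c) = p.2) :
    dom S ∩ c' = dom S ∩ c ↔ ∀ p ∈ S, decide (p.1 ∈ c') = p.2 := by
  constructor
  · intro h p hp
    rw [← hc p hp]
    have h1 : p.1 ∈ dom S := mem_image_of_mem _ hp
    have h2 : p.1 ∈ c' ↔ p.1 ∈ c := by
      have h3 := Finset.ext_iff.1 h p.1
      rw [mem_inter, mem_inter] at h3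
      exact ⟨fun h4 => (h3.1 ⟨h1, h4⟩).2, fun h4 => (h3.2 ⟨h1, h4⟩).2⟩
    exact decide_eq_decide.2 h2
  · intro h
    ext x
    rw [mem_inter, mem_inter]
    refine and_congr_right fun hx => ?_
    obtain ⟨p, hp, rfl⟩ := mem_image.1 hx
    have h1 := (h p hp).trans (hc p hp).symm
    exact decide_eq_decide.1 h1

theorem card_dom {S : Finset (X × Bool)} {c : Finset X}
    (hc : ∀ p ∈ S, decide (p.1 ∈ c) = p.2) : (dom S).card = S.card := by
  refine card_image_of_injOn fun p hp q hq h => ?_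
  refine Prod.ext h ?_
  rw [← hc p hp, ← hc q hq, h]

/-- From distinct sets of places to a compression scheme. -/
theorem scheme_of_inj (F : Finset (Finset (X × Bool))) (c : Finset (X × Bool) → Finset X)
    (hc : ∀ S ∈ F, ∀ p ∈ S, decide (p.1 ∈ c S) = p.2)
    (Z : {S // S ∈ F} → Finset X) (hZ : Function.Injective Z) (hZs : ∀ S, Z S ⊆ dom S.1) :
    ∃ κ : Finset (X × Bool) → Finset (X × Bool), ∃ ρ : Finset X → Finset X,
      ∀ S, ∀ h : S ∈ F, κ S ⊆ S ∧ dom (κ S) = Z ⟨S, h⟩ ∧ (κ S).card = (Z ⟨S, h⟩).card ∧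
        ρ (dom (κ S)) = c S := by
  classical
  let κ : Finset (X × Bool) → Finset (X × Bool) := fun S =>
    if h : S ∈ F then (Z ⟨S, h⟩).image fun x => (x, decide (x ∈ c S)) else ∅
  let ρ : Finset X → Finset X := fun W =>
    if h : ∃ S : {S // S ∈ F}, Z S = W then c h.choose.1 else ∅
  refine ⟨κ, ρ, fun S h => ?_⟩
  have h1 : κ S = (Z ⟨S, h⟩).image fun x => (x, decide (x ∈ c S)) := dif_pos h
  have h2 : dom (κ S) = Z ⟨S, h⟩ := by
    rw [h1, dom, image_image]
    exact image_id
  refine ⟨?_, h2, ?_, ?_⟩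
  · rw [h1]
    intro p hp
    obtain ⟨x, hx, rfl⟩ := mem_image.1 hp
    obtain ⟨q, hq, rfl⟩ := mem_image.1 (hZs ⟨S, h⟩ hx)
    rw [hc S h q hq]
    exact hq
  · rw [h1]
    exact card_image_of_injective _ fun x y hxy => (Prod.ext_iff.1 hxy).1
  · rw [h2]
    have h3 : ∃ S' : {S // S ∈ F}, Z S' = Z ⟨S, h⟩ := ⟨⟨S, h⟩, rfl⟩
    have h4 : ρ (Z ⟨S, h⟩) = c h3.choose.1 := dif_pos h3
    rw [h4, hZ h3.choose_spec]

end Pool.Agent.Lib.MP_aa62e0_lcS
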