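import Mathlib

/-!
MP_aa62e0_lc (sample compression).  The polynomial method: functions on a concept class which depend
only on the places of `A` are combinations of the monomials of the shattered subsets of `A`.
-/

set_option autoImplicit false

open Finset

namespace Pool.Agent.Lib.MP_aa62e0_lcS

variable {X : Type} [DecidableEq X]

/-- The monomial of `Z` as a function on the class `C`. -/
def mono (C : Finset (Finset X)) (Z : Finset X) : C → ℚ := fun c => if Z ⊆ c.1 then 1 else 0

/-- The indicator of the concepts which agree with `c₀` on `A`. -/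
def ind (C : Finset (Finset X)) (A c₀ : Finset X) : C → ℚ :=
  fun c => if A ∩ c.1 = A ∩ c₀ then 1 else 0

/-- The span of the monomials of the shattered subsets of `A`. -/
def spn (C : Finset (Finset X)) (A : Finset X) : Submodule ℚ (C → ℚ) :=
  Submodule.span ℚ (mono C '' {W | W ⊆ A ∧ C.Shatters W})

theorem alt_sum (Z P c : Finset X) (hP : P ⊆ Z) :
    ∑ Q ∈ (Z \ P).powerset, (-1 : ℚ) ^ Q.card * (if P ∪ Q ⊆ c then 1 else 0) =
      if Z ∩ c = P then 1 else 0 := by
  by_cases hPc : P ⊆ c
  · have h1 : ∀ Q ∈ (Z \ P).powerset, (-1 : ℚ) ^ Q.card * (if P ∪ Q ⊆ c then 1 else 0) =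
        if Q ⊆ (Z \ P) ∩ c then (-1 : ℚ) ^ Q.card else 0 := by
      intro Q hQ
      rw [mem_powerset] at hQ
      by_cases hQc : Q ⊆ c
      · rw [if_pos (union_subset hPc hQc), if_pos (subset_inter hQ hQc), mul_one]
      · rw [if_neg fun h => hQc (subset_union_right.trans h),
          if_neg fun h => hQc (h.trans inter_subset_right), mul_zero]
    rw [sum_congr rfl h1, ← sum_filter]
    have h2 : (Z \ P).powerset.filter (fun Q => Q ⊆ (Z \ P) ∩ c) =
        ((Z \ P) ∩ c).powerset := by
      ext Q
      rw [mem_filter, mem_powerset, mem_powerset]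
      exact ⟨fun h => h.2, fun h => ⟨h.trans inter_subset_left, h⟩⟩
    rw [h2]
    have h3 := @Finset.sum_powerset_neg_one_pow_card X _ ((Z \ P) ∩ c)
    have h4 : ((∑ m ∈ ((Z \ P) ∩ c).powerset, (-1 : ℤ) ^ m.card : ℤ) : ℚ) =
        ∑ m ∈ ((Z \ P) ∩ c).powerset, (-1 : ℚ) ^ m.card := by
      push_cast
      rfl
    rw [← h4, h3]
    by_cases h5 : Z ∩ c = P
    · have h6 : (Z \ P) ∩ c = ∅ := by
        ext x
        simp only [mem_inter, mem_sdiff, notMem_empty, iff_false]
        rintro ⟨⟨hx1, hx2⟩, hx3⟩
        exact hx2 (h5 ▸ mem_inter.2 ⟨hx1, hx3⟩)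
      rw [if_pos h6, if_pos h5]
      simp
    · have h6 : (Z \ P) ∩ c ≠ ∅ := by
        intro h7
        apply h5
        apply subset_antisymm
        · intro x hx
          rw [mem_inter] at hx
          by_contra hxP
          have h8 : x ∈ (Z \ P) ∩ c := by
            rw [mem_inter, mem_sdiff]
            exact ⟨⟨hx.1, hxP⟩, hx.2⟩
          rw [h7] at h8
          exact notMem_empty x h8
        · exact subset_inter hP hPc
      rw [if_neg h6, if_neg h5]
      simp
  · have h5 : Z ∩ c ≠ P := by
      rintro rfl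
      exact hPc inter_subset_right
    rw [if_neg h5]
    refine sum_eq_zero fun Q _ => ?_
    rw [if_neg fun h => hPc (subset_union_left.trans h), mul_zero]

theorem spn_mono (C : Finset (Finset X)) {A B : Finset X} (h : A ⊆ B) : spn C A ≤ spn C B :=
  Submodule.span_mono (Set.image_mono fun _ hW => ⟨hW.1.trans h, hW.2⟩)

theorem mono_mem (C : Finset (Finset X)) (Z : Finset X) : mono C Z ∈ spn C Z := by
  induction Z using Finset.strongInduction with
  | H Z ih =>
    by_cases h : C.Shatters Z
    · exact Submodule.subset_span ⟨Z, ⟨Subset.rfl, h⟩, rfl⟩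
    · have h1 : ∃ P, P ⊆ Z ∧ ∀ u ∈ C, Z ∩ u ≠ P := by
        by_contra h2
        apply h
        intro P hP
        by_contra h3
        apply h2
        refine ⟨P, hP, fun u hu h4 => h3 ⟨u, hu, h4⟩⟩
      obtain ⟨P, hP, hne⟩ := h1
      have h2 : ∑ Q ∈ (Z \ P).powerset, (-1 : ℚ) ^ Q.card • mono C (P ∪ Q) = 0 := by
        funext c
        rw [Finset.sum_apply]
        have h3 := alt_sum Z P c.1 hP
        rw [if_neg (hne c.1 c.2)] at h3
        simpa [mono] using h3
      rw [← add_sum_erase _ _ (mem_powerset_self (Z \ P)), union_sdiff_of_subset hP] at h2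
      have h4 : ∑ Q ∈ (Z \ P).powerset.erase (Z \ P), (-1 : ℚ) ^ Q.card • mono C (P ∪ Q) ∈
          spn C Z := by
        refine Submodule.sum_mem _ fun Q hQ => Submodule.smul_mem _ _ ?_
        rw [mem_erase, mem_powerset] at hQ
        have h5 : P ∪ Q ⊂ Z := by
          refine Finset.ssubset_iff_subset_ne.2 ⟨union_subset hP (hQ.2.trans sdiff_subset), ?_⟩
          intro h6
          apply hQ.1
          refine subset_antisymm hQ.2 fun x hx => ?_
          rw [mem_sdiff] at hx
          have h7 : x ∈ P ∪ Q := h6 ▸ hx.1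
          rw [mem_union] at h7
          exact h7.resolve_left hx.2
        exact spn_mono C h5.subset (ih _ h5)
      have h5 : mono C Z = (-1 : ℚ) ^ (Z \ P).card •
          (-∑ Q ∈ (Z \ P).powerset.erase (Z \ P), (-1 : ℚ) ^ Q.card • mono C (P ∪ Q)) := by
        rw [← eq_neg_of_add_eq_zero_left h2, smul_smul, ← mul_pow]
        norm_num
      rw [h5]
      exact Submodule.smul_mem _ _ (Submodule.neg_mem _ h4)

theorem ind_mem (C : Finset (Finset X)) (A c₀ : Finset X) : ind C A c₀ ∈ spn C A := by
  have h1 : ind C A c₀ =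
      ∑ Q ∈ (A \ (A ∩ c₀)).powerset, (-1 : ℚ) ^ Q.card • mono C ((A ∩ c₀) ∪ Q) := by
    funext c
    rw [Finset.sum_apply]
    have h3 := alt_sum A (A ∩ c₀) c.1 inter_subset_left
    simpa [mono, ind] using h3.symm
  rw [h1]
  refine Submodule.sum_mem _ fun Q hQ => Submodule.smul_mem _ _ ?_
  rw [mem_powerset] at hQ
  exact spn_mono C (union_subset inter_subset_left (hQ.trans sdiff_subset)) (mono_mem C _)

/-- The shattered subsets of `A`. -/
def sh (C : Finset (Finset X)) (A : Finset X) : Finset (Finset X) :=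
  A.powerset.filter fun Z => C.Shatters Z

theorem mem_sh {C : Finset (Finset X)} {A Z : Finset X} : Z ∈ sh C A ↔ Z ⊆ A ∧ C.Shatters Z := by
  rw [sh, mem_filter, mem_powerset]

/-- Pajor's theorem with prescribed places: if the concept `c j` does not agree with `c i` on `A i`
for all earlier `j`, then there are at least as many shattered sets below the `A i` as indices. -/
theorem card_le_sh {ι : Type} [DecidableEq ι] (C : Finset (Finset X)) (s : Finset ι)
    (rk : ι → ℕ) (hrk : Set.InjOn rk s) (A c : ι → Finset X) (hc : ∀ i ∈ s, c i ∈ C)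
    (hind : ∀ i ∈ s, ∀ j ∈ s, rk j < rk i → A i ∩ c j ≠ A i ∩ c i) :
    s.card ≤ (s.biUnion fun i => sh C (A i)).card := by
  classical
  set G := s.biUnion fun i => sh C (A i) with hG
  let f : s → (C → ℚ) := fun i => ind C (A i.1) (c i.1)
  have hli : LinearIndependent ℚ f := by
    rw [linearIndependent_iff']
    intro u g hg
    by_contra hcon
    push Not at hcon
    obtain ⟨i₁, hi₁, hgi₁⟩ := hcon
    obtain ⟨i₀, hi₀, hmin⟩ := (u.filter fun i => g i ≠ 0).exists_min_image (fun i => rk i.1)
      ⟨i₁, mem_filter.2 ⟨hi₁, hgi₁⟩⟩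
    rw [mem_filter] at hi₀
    have h1 := congrFun hg ⟨c i₀.1, hc i₀.1 i₀.2⟩
    rw [Finset.sum_apply, sum_eq_single i₀] at h1
    · have h2 : f i₀ ⟨c i₀.1, hc i₀.1 i₀.2⟩ = 1 := if_pos rfl
      rw [Pi.smul_apply, h2, smul_eq_mul, mul_one] at h1
      exact hi₀.2 h1
    · intro i hi hne
      by_cases hgi : g i = 0
      · rw [hgi, zero_smul]
        rfl
      · have h2 := hmin i (mem_filter.2 ⟨hi, hgi⟩)
        have h3 : rk i₀.1 < rk i.1 := by
          refine lt_of_le_of_ne h2 fun h4 => hne ?_
          exact Subtype.ext (hrk i.2 i₀.2 h4.symm)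
        have h5 : f i ⟨c i₀.1, hc i₀.1 i₀.2⟩ = 0 := if_neg (hind i.1 i.2 i₀.1 i₀.2 h3)
        rw [Pi.smul_apply, h5, smul_zero]
    · intro h
      exact absurd hi₀.1 h
  have h1 : Module.finrank ℚ (Submodule.span ℚ (Set.range f)) = s.card := by
    rw [finrank_span_eq_card hli, Fintype.card_coe]
  have h2 : Submodule.span ℚ (Set.range f) ≤
      Submodule.span ℚ ((G.image (mono C) : Finset (C → ℚ)) : Set (C → ℚ)) := by
    rw [Submodule.span_le]
    rintro _ ⟨i, rfl⟩
    have h3 := ind_mem C (A i.1) (c i.1)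
    refine Submodule.span_mono ?_ h3
    rintro _ ⟨W, hW, rfl⟩
    rw [coe_image]
    refine ⟨W, ?_, rfl⟩
    rw [hG, mem_coe, mem_biUnion]
    exact ⟨i.1, i.2, mem_sh.2 hW⟩
  calc s.card = Module.finrank ℚ (Submodule.span ℚ (Set.range f)) := h1.symm
    _ ≤ Module.finrank ℚ
        (Submodule.span ℚ ((G.image (mono C) : Finset (C → ℚ)) : Set (C → ℚ))) :=
      Submodule.finrank_mono h2
    _ ≤ (G.image (mono C)).card := finrank_span_finset_le_card _
    _ ≤ G.card := card_image_le

/-- Selection of a large independent subfamily. -/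
theorem exists_indep {ι : Type} [DecidableEq ι] (rk : ι → ℕ) (R : ι → ι → Prop) (t : ℕ)
    [∀ i j, Decidable (R i j)] (s : Finset ι)
    (hs : ∀ i ∈ s, (s.filter fun j => rk j < rk i ∧ R i j).card ≤ t) :
    ∃ s' ⊆ s, s.card ≤ (t + 1) * s'.card ∧ ∀ i ∈ s', ∀ j ∈ s', rk j < rk i → ¬ R i j := by
  induction s using Finset.strongInduction with
  | H s ih =>
    rcases s.eq_empty_or_nonempty with rfl | hne
    · exact ⟨∅, Subset.rfl, by simp, by simp⟩
    · obtain ⟨i, hi, hmax⟩ := s.exists_max_image rk hne
      let s₁ := (s.erase i).filter fun j => ¬ (rk j < rk i ∧ R i j)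
      have hs₁ : s₁ ⊂ s :=
        lt_of_le_of_lt (filter_subset _ _) (erase_ssubset hi)
      have h1 : ∀ k ∈ s₁, (s₁.filter fun j => rk j < rk k ∧ R k j).card ≤ t := fun k hk =>
        (card_le_card (filter_subset_filter _ hs₁.subset)).trans (hs k (hs₁.subset hk))
      obtain ⟨s', hs', hcard, hind⟩ := ih s₁ hs₁ h1
      refine ⟨insert i s', insert_subset hi (hs'.trans hs₁.subset), ?_, ?_⟩
      · have h2 : i ∉ s' := fun h => by
          have h3 := hs' h
          rw [mem_filter, mem_erase] at h3
          exact h3.1.1 rfl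
        rw [card_insert_of_notMem h2]
        have h3 : s.card ≤ s₁.card + (t + 1) := by
          have h4 : (s.erase i).card = s₁.card +
              ((s.erase i).filter fun j => ¬ ¬ (rk j < rk i ∧ R i j)).card :=
            (card_filter_add_card_filter_not _).symm
          have h5 : ((s.erase i).filter fun j => ¬ ¬ (rk j < rk i ∧ R i j)).card ≤ t := by
            refine (card_le_card ?_).trans (hs i hi)
            intro j hj
            rw [mem_filter, mem_erase, not_not] at hj
            exact mem_filter.2 ⟨hj.1.2, hj.2⟩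
          have h6 := card_erase_add_one hi
          omega
        calc s.card ≤ s₁.card + (t + 1) := h3
          _ ≤ (t + 1) * s'.card + (t + 1) := by omega
          _ = (t + 1) * (s'.card + 1) := by ring
      · intro k hk j hj hlt
        rw [mem_insert] at hk hj
        rcases hk with rfl | hk
        · rcases hj with rfl | hj
          · exact absurd hlt (lt_irrefl _)
          · have h3 := hs' hj
            rw [mem_filter] at h3
            exact fun h => h3.2 ⟨hlt, h⟩
        · rcases hj with rfl | hj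
          · exact absurd hlt (not_lt.2 (hmax k (hs₁.subset (hs' hk))))
          · exact hind k hk j hj hlt

end Pool.Agent.Lib.MP_aa62e0_lcS
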